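import Mathlib
import Pool.Agent.Helper7.RM.Defs
import Pool.Agent.Helper7.RM.Main

/-! Hindman's theorem for two colours and sums of at most two terms implies `ACA₀` over `RCA₀`:
every model of `RCA₀` in which it holds is a model of `ACA₀`. -/

namespace Pool.Agent.Results.MP_a0596c_lc.HT22impACA0

open Pool.Agent.Helper7.RM

universe u

/-- For every structure `(N, S, 0, 1, +, *, <)` of second-order arithmetic (`N` any type, `S` any
set of subsets of `N`): if it is a model of `RCA₀` and satisfies Hindman's theorem for two
colours and sums of at most two terms, then it is a model of `ACA₀`. -/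
theorem result (N : Type u) [Zero N] [One N] [Add N] [Mul N] [LT N] (S : Set (Set N))
    (hRCA : RCA0 N S) (hHT : HT22 N S) : ACA0 N S :=
  main N S hRCA hHT

end Pool.Agent.Results.MP_a0596c_lc.HT22impACA0
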