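import Mathlib
import Pool.Agent.Helper81.HT.Defs
import Pool.Agent.Helper7.HT2.Fin

/-! Two colours, sums of at most two terms: the jump is coded. -/

namespace Pool.Agent.Results.MP_a0596c_lc.HT2le2

open Pool.Agent.Helper81.HT

/-- For every set `A` there is a colouring of the natural numbers with two colours, computable
in `A`, such that every infinite `X` for which the sums of one or two distinct elements of `X`
all have the same colour computes, together with `A`, every set recursively enumerable in `A`. -/
theorem result (A : Set ℕ) :
    ∃ c : ℕ → Fin 2, ComputableIn {chi A} c ∧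
      ∀ X : Set ℕ, X.Infinite → Mono c (FSle 2 X) →
        ∀ g : ℕ →. ℕ, RecursiveIn {chi A} g →
          RecursiveIn {chi A, chi X} (chi {n | (g n).Dom}) :=
  Pool.Agent.Helper7.HT2.main A

end Pool.Agent.Results.MP_a0596c_lc.HT2le2
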